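import Mathlib

set_option autoImplicit false

open Filter Topology Set Real

namespace Pool.Agent.H.MP_098a03_an

noncomputable def c (b : ℝ) (i : ℕ) : ℝ := b ^ i / i.factorial

variable {b ρ : ℝ}

theorem c_pos (hb : 0 < b) (i : ℕ) : 0 < c b i := by unfold c; positivity

theorem c_succ (b : ℝ) (i : ℕ) : c b (i + 1) = c b i * (b / (i + 1)) := by
  simp only [c, Nat.factorial_succ]; push_cast; field_simp; ring

theorem c_le (hb : 0 < b) (h1 : b ≤ 1) (i d : ℕ) : c b (i + d) ≤ c b i * (1 / (i + 1)) ^ d := by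
  induction d with
  | zero => simp
  | succ d ih =>
    rw [← add_assoc, c_succ, pow_succ, ← mul_assoc]
    have := c_pos hb i
    gcongr
    omega

theorem c_ge (hb : 0 < b) (i d m : ℕ) (h : i + d ≤ m) : c b i * (b / m) ^ d ≤ c b (i + d) := by
  induction d with
  | zero => simp
  | succ d ih =>
    rw [← add_assoc, c_succ, pow_succ, ← mul_assoc]
    have := c_pos hb (i + d)
    gcongr
    · exact ih (by omega)
    · exact_mod_cast (by omega : i + d + 1 ≤ m)

theorem c_anti (hb : 0 < b) (h1 : b ≤ 1) {i n : ℕ} (h : i ≤ n) : c b n ≤ c b i := by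
  obtain ⟨d, rfl⟩ := Nat.exists_eq_add_of_le h
  refine (c_le hb h1 i d).trans (mul_le_of_le_one_right (c_pos hb i).le (pow_le_one₀ (by positivity) ?_))
  rw [div_le_one (by positivity)]; linarith [i.cast_nonneg (α := ℝ)]

theorem log_c (hb : 0 < b) (i d : ℕ) : log (c b i) - log (c b (i + d)) =
    ∑ r ∈ Finset.range d, log (i + r + 1) - d * log b := by
  induction d with
  | zero => simp
  | succ d ih =>
    rw [← add_assoc, c_succ, log_mul (c_pos hb _).ne' (by positivity),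
      log_div hb.ne' (by positivity), Finset.sum_range_succ]
    push_cast; linarith

theorem slot (h0 : 0 < ρ) (h1 : ρ < 1) {x S : ℝ} (hS : 0 < S) (h2 : S ≤ x) {i : ℕ}
    (h3 : x * ρ ^ i ≤ S) : ∃ j ≤ i, ρ * S ≤ x * ρ ^ j ∧ x * ρ ^ j ≤ S := by
  classical
  have h : ∃ j, x * ρ ^ j ≤ S := ⟨i, h3⟩
  refine ⟨Nat.find h, Nat.find_min' h h3, ?_, Nat.find_spec h⟩
  rcases h4 : Nat.find h with _ | j
  · simp; nlinarith
  · have := Nat.find_min h (show j < Nat.find h by omega)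
    rw [pow_succ]; nlinarith

theorem log_sep {m t u : ℝ} (hm : 0 < m) (ht : m ≤ t) (hu : m ≤ u) :
    m * |log t - log u| ≤ |t - u| := by
  wlog h : u ≤ t generalizing t u
  · rw [abs_sub_comm, abs_sub_comm t]; exact this hu ht (by linarith)
  have h1 : 0 < u := by linarith
  have h2 := log_le_sub_one_of_pos (show 0 < t / u by have : 0 < t := by linarith
                                                      positivity)
  have h3 := log_le_log h1 h
  rw [log_div (by linarith) h1.ne', div_sub_one h1.ne', le_div_iff₀ h1] at h2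
  rw [abs_of_nonneg (by linarith), abs_of_nonneg (by linarith)]
  nlinarith

/-- collisions -/
def Col (b ρ η : ℝ) (i j : ℕ) : Prop := ∃ k : ℤ, |log (c b i) - log (c b j) + k * log ρ| < η

theorem col_uniq (hb : 0 < b) {n g i j d : ℕ} {l : ℝ} (hl : -log ρ = l) (hd : 0 < d) (hdg : d ≤ g)
    (hi : n ≤ i + g) (hij : i < j) (hj : j < n) (hg : g < n)
    (h : (g : ℝ) ^ 2 / (n - g) + 1 / (2 * n) < l)
    (h1 : Col b ρ (1 / (4 * n)) i (i + d)) (h2 : Col b ρ (1 / (4 * n)) j (j + d)) : False := by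
  obtain ⟨k, h1⟩ := h1
  obtain ⟨m, h2⟩ := h2
  rw [log_c hb, abs_lt] at h1 h2
  have a1 : (n : ℝ) ≤ i + g := by exact_mod_cast hi
  have a2 : (i : ℝ) + 1 ≤ j := by exact_mod_cast hij
  have a3 : (j : ℝ) + 1 ≤ n := by exact_mod_cast hj
  have a4 : (g : ℝ) < n := by exact_mod_cast hg
  have a5 : (d : ℝ) ≤ g := by exact_mod_cast hdg
  have a6 : (0 : ℝ) ≤ i := i.cast_nonneg
  have a7 : (0 : ℝ) < n := by linarith
  have h3 : ∀ r : ℕ, log (j + r + 1) - log (i + r + 1) ≤ g / (n - g) := fun r => by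
    have : (0 : ℝ) ≤ r := r.cast_nonneg
    rw [← log_div (by linarith) (by linarith)]
    refine (log_le_sub_one_of_pos (div_pos (by linarith) (by linarith))).trans ?_
    rw [div_sub_one (by linarith)]
    exact div_le_div₀ (by linarith) (by linarith) (by linarith) (by linarith)
  have h4 : ∑ r ∈ Finset.range d, log (j + r + 1) - ∑ r ∈ Finset.range d, log (i + r + 1) ≤
      g ^ 2 / (n - g) := by
    rw [← Finset.sum_sub_distrib]
    refine (Finset.sum_le_card_nsmul _ _ _ fun r _ => h3 r).trans ?_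
    rw [Finset.card_range, nsmul_eq_mul, sq, mul_div_assoc]
    exact mul_le_mul_of_nonneg_right a5 (div_nonneg g.cast_nonneg (by linarith))
  have h5 : 1 / (n : ℝ) ≤
      ∑ r ∈ Finset.range d, log (j + r + 1) - ∑ r ∈ Finset.range d, log (i + r + 1) := by
    rw [← Finset.sum_sub_distrib]
    refine le_trans ?_ (Finset.single_le_sum (f := fun r : ℕ => log (j + r + 1) - log (i + r + 1))
      (fun r _ => sub_nonneg.2 (log_le_log (by positivity) (by linarith))) (Finset.mem_range.2 hd))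
    simp only [Nat.cast_zero, add_zero]
    rw [← log_div (by linarith) (by linarith)]
    refine le_trans ?_ (one_sub_inv_le_log_of_pos (div_pos (by linarith) (by linarith)))
    rw [inv_div, one_sub_div (by linarith)]
    exact div_le_div₀ (by linarith) (by linarith) (by linarith) (by linarith)
  have h6 : 1 / (n : ℝ) = 4 * (1 / (4 * n)) := by field_simp
  have h7 : 1 / (2 * n : ℝ) = 2 * (1 / (4 * n)) := by field_simp; norm_num
  have h8 : 0 < 1 / (4 * n : ℝ) := by positivity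
  have h9 : log ρ = -l := by linarith
  rw [h9] at h1 h2
  have hl0 : 0 < l := by linarith
  rcases le_or_gt m k with h10 | h10
  · have : (m : ℝ) ≤ k := by exact_mod_cast h10
    nlinarith
  · have : (k : ℝ) + 1 ≤ m := by exact_mod_cast h10
    nlinarith

theorem pick (hb : 0 < b) {n N : ℕ} (hN : 0 < N) (hg : 16 * N < n)
    (h : ((16 * N : ℕ) : ℝ) ^ 2 / (n - (16 * N : ℕ)) + 1 / (2 * n) < -log ρ) (U : Finset ℕ)
    (hU : (U.filter (n ≤ · + 16 * N)).card ≤ 4 * N) : ∃ T : Finset ℕ, T.card = N ∧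
      (∀ i ∈ T, i ∉ U ∧ n ≤ i + 16 * N ∧ i < n) ∧
      ∀ i ∈ T, ∀ j ∈ T, i < j → ¬ Col b ρ (1 / (4 * n)) i j := by
  classical
  set W := Finset.Ico (n - 16 * N) n
  set B := (Finset.Ico 1 (2 * N)).biUnion fun d => W.filter fun i => Col b ρ (1 / (4 * n)) i (i + d)
  have h1 : B.card ≤ 2 * N := by
    refine (Finset.card_biUnion_le_card_mul _ _ 1 fun d hd => Finset.card_le_one.2
      fun i hi j hj => ?_).trans (by simp)
    simp only [W, Finset.mem_filter, Finset.mem_Ico] at hi hj hd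
    rcases lt_trichotomy i j with h2 | h2 | h2
    · exact (col_uniq hb rfl (g := 16 * N) hd.1 (by omega) (by omega) h2 hj.1.2 hg h hi.2 hj.2).elim
    · exact h2
    · exact (col_uniq hb rfl (g := 16 * N) hd.1 (by omega) (by omega) h2 hi.1.2 hg h hj.2 hi.2).elim
  have h2 := Finset.le_card_sdiff (U.filter (n ≤ · + 16 * N) ∪ B) W
  have h3 := Finset.card_union_le (U.filter (n ≤ · + 16 * N)) B
  have h4 : W.card = 16 * N := by simp [W]; omega
  obtain ⟨y, -, h5⟩ := Finset.exists_le_card_fiber_of_mul_le_card_of_maps_to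
    (s := W \ (U.filter (n ≤ · + 16 * N) ∪ B)) (t := Finset.range 8) (n := N)
    (f := fun i => (i - (n - 16 * N)) / (2 * N)) (fun i hi => by
      simp only [W, Finset.mem_sdiff, Finset.mem_Ico] at hi
      rw [Finset.mem_range, Nat.div_lt_iff_lt_mul (by omega)]; omega) (by simp)
    (by rw [Finset.card_range]; omega)
  obtain ⟨T, h6, h7⟩ := Finset.exists_subset_card_eq h5
  have h8 : ∀ i ∈ T, (n - 16 * N ≤ i ∧ i < n) ∧ i ∉ U ∧ i ∉ B ∧ (i - (n - 16 * N)) / (2 * N) = y :=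
    fun i hi => by
      have := h6 hi
      simp only [W, Finset.mem_filter, Finset.mem_sdiff, Finset.mem_Ico, Finset.mem_union,
        not_or, not_and] at this
      exact ⟨this.1.1, fun h => this.1.2.1 h (by omega), this.1.2.2, this.2⟩
  refine ⟨T, h7, fun i hi => ⟨(h8 i hi).2.1, by have := (h8 i hi).1; omega, (h8 i hi).1.2⟩,
    fun i hi j hj hij hc => (h8 i hi).2.2.1 (Finset.mem_biUnion.2 ⟨j - i, ?_, ?_⟩)⟩
  · obtain ⟨a1, -, -, a2⟩ := h8 i hi
    obtain ⟨a3, -, -, a4⟩ := h8 j hj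
    have b1 := Nat.div_add_mod (i - (n - 16 * N)) (2 * N)
    have b2 := Nat.div_add_mod (j - (n - 16 * N)) (2 * N)
    have b3 := Nat.mod_lt (j - (n - 16 * N)) (show 0 < 2 * N by omega)
    rw [a2] at b1; rw [a4] at b2
    rw [Finset.mem_Ico]; omega
  · rw [Finset.mem_filter, Nat.add_sub_cancel' hij.le]
    exact ⟨Finset.mem_Ico.2 (h8 i hi).1, hc⟩

theorem stage (hb : 0 < b) (hb1 : b ≤ 1) (h0 : 0 < ρ) (h1 : ρ < 1) {n N : ℕ} (h2 : 4 * N ^ 4 ≤ n)
    (h3 : n ≤ 64 * N ^ 4) (h4 : 72 / b ≤ N) (h5 : 16 / ρ ≤ N) (h6 : 130 / -log ρ ≤ N)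
    (U : Finset ℕ) (hU : (U.filter (n ≤ · + 16 * N)).card ≤ 4 * N) : ∃ f j : ℕ → ℕ, ∀ d < N,
      f d ∉ U ∧ f d < n ∧ j d ≤ f d ∧ c b (f d) * ρ ^ j d ≤ c b n ∧ ∀ e < N, d ≠ e →
        3 * c b (n + 4) ≤ |c b (f d) * ρ ^ j d - c b (f d) * ρ ^ f d -
          (c b (f e) * ρ ^ j e - c b (f e) * ρ ^ f e)| := by
  have hl : 0 < -log ρ := neg_pos.2 (log_neg h0 h1)
  rw [div_le_iff₀ hb] at h4
  rw [div_le_iff₀ h0] at h5
  rw [div_le_iff₀ hl] at h6
  have a1 : (72 : ℝ) ≤ N := by nlinarith [N.cast_nonneg (α := ℝ)]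
  have a2 : 4 * (N : ℝ) ^ 4 ≤ n := by exact_mod_cast h2
  have a3 : (n : ℝ) ≤ 64 * N ^ 4 := by exact_mod_cast h3
  have a4 : 8 * (N : ℝ) ≤ N ^ 4 := by
    have : (72 : ℝ) ^ 3 ≤ N ^ 3 := by gcongr
    nlinarith
  have a5 : 16 * N < n := by
    have : 16 * (N : ℝ) < n := by linarith
    exact_mod_cast this
  have a6 : (N : ℝ) ^ 2 ≤ N ^ 4 := pow_le_pow_right₀ (by linarith) (by norm_num)
  obtain ⟨T, t1, t2, t3⟩ := pick (ρ := ρ) hb (show 0 < N by exact_mod_cast (by linarith : (0 : ℝ) < N))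
    a5 (by
      push_cast
      have b1 : (16 * N : ℝ) ^ 2 / (n - 16 * N) ≤ 128 / N ^ 2 := by
        rw [div_le_div_iff₀ (by linarith) (by positivity)]; nlinarith
      have b2 : 1 / (2 * n : ℝ) ≤ 1 / N ^ 2 := one_div_le_one_div_of_le (by positivity) (by nlinarith)
      have b3 : 129 / (N : ℝ) ^ 2 < -log ρ := by
        rw [div_lt_iff₀ (by positivity)]; nlinarith
      have : 129 / (N : ℝ) ^ 2 = 128 / N ^ 2 + 1 / N ^ 2 := by ring
      linarith) U hU
  have t4 : ∀ i ∈ T, c b i * ρ ^ i ≤ c b (n + 4) := fun i hi => by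
    obtain ⟨-, b1, b2⟩ := t2 i hi
    have b3 := c_ge hb i (n + 4 - i) (n + 4) (by omega)
    rw [show i + (n + 4 - i) = n + 4 by omega] at b3
    refine le_trans (mul_le_mul_of_nonneg_left ?_ (c_pos hb i).le) b3
    have b4 : exp (-(5 * N)) ≤ b / (n + 4 : ℕ) := by
      have : (N : ℝ) ^ 5 ≤ exp (5 * N) := by
        have := add_one_le_exp (N : ℝ)
        rw [show (5 : ℝ) * N = (5 : ℕ) * N by norm_num, exp_nat_mul]
        gcongr; linarith
      rw [exp_neg, inv_eq_one_div, div_le_div_iff₀ (exp_pos _) (by positivity)]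
      push_cast
      nlinarith
    refine le_trans ?_ (pow_le_pow_left₀ (exp_pos _).le b4 _)
    rw [← exp_log h0, ← exp_nat_mul, ← exp_nat_mul, exp_le_exp, Nat.cast_sub (by omega)]
    have b5 : (n : ℝ) ≤ i + 16 * N := by exact_mod_cast b1
    have b6 : 130 * (N : ℝ) ^ 3 ≤ N ^ 4 * -log ρ := by nlinarith [pow_pos (show (0 : ℝ) < N by linarith) 3]
    have b7 : (N : ℝ) ^ 2 ≤ N ^ 3 := pow_le_pow_right₀ (by linarith) (by norm_num)
    push_cast
    nlinarith
  have t5 : 4 * c b (n + 4) ≤ ρ * c b n * (1 / (4 * n)) := by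
    have b1 := c_le hb hb1 n 4
    have b2 : 4 * (1 / ((n : ℝ) + 1)) ^ 4 ≤ ρ * (1 / (4 * n)) := by
      rw [one_div_pow, mul_one_div, mul_one_div, div_le_div_iff₀ (by positivity) (by linarith)]
      have : (n : ℝ) ^ 2 ≤ (n + 1) ^ 4 := by nlinarith [sq_nonneg ((n : ℝ) ^ 2), pow_pos (show (0 : ℝ) < n by linarith) 3]
      nlinarith
    nlinarith [c_pos hb n]
  choose! j j1 j2 j3 using fun i (hi : i ∈ T) => slot h0 h1 (c_pos hb n)
    (c_anti hb hb1 (t2 i hi).2.2.le) ((t4 i hi).trans (c_anti hb hb1 (by omega)))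
  have t6 : ∀ i ∈ T, ∀ k ∈ T, i < k → 3 * c b (n + 4) ≤ |c b i * ρ ^ j i - c b i * ρ ^ i -
      (c b k * ρ ^ j k - c b k * ρ ^ k)| := fun i hi k hk hik => by
    have b1 := log_sep (mul_pos h0 (c_pos hb n)) (j2 i hi) (j2 k hk)
    have b2 := not_lt.1 fun h => t3 i hi k hk hik ⟨(j i : ℤ) - j k, h⟩
    rw [log_mul (c_pos hb _).ne' (by positivity), log_mul (c_pos hb _).ne' (by positivity),
      log_pow, log_pow] at b1
    push_cast at b2
    rw [show log (c b i) - log (c b k) + (j i - j k) * log ρ =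
      log (c b i) + j i * log ρ - (log (c b k) + j k * log ρ) by ring] at b2
    have b3 := mul_le_mul_of_nonneg_left b2 (mul_pos h0 (c_pos hb n)).le
    have b4 := t4 i hi
    have b5 := t4 k hk
    have b6 : 0 < c b i * ρ ^ i := mul_pos (c_pos hb _) (by positivity)
    have b7 : 0 < c b k * ρ ^ k := mul_pos (c_pos hb _) (by positivity)
    have b8 := (t5.trans b3).trans b1
    rw [le_abs] at b8 ⊢
    rcases b8 with b8 | b8
    · left; linarith
    · right; linarith
  let f : ℕ → ℕ := fun d => if h : d < N then T.orderEmbOfFin t1 ⟨d, h⟩ else 0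
  have f1 : ∀ d < N, f d ∈ T := fun d hd => by simp [f, hd]
  have f2 : ∀ d e, d < e → e < N → f d < f e := fun d e h7 h8 => by
    simp only [f, h8, h7.trans h8, dif_pos]
    exact (T.orderEmbOfFin t1).strictMono h7
  refine ⟨f, fun d => j (f d), fun d hd => ⟨(t2 _ (f1 d hd)).1, (t2 _ (f1 d hd)).2.2,
    j1 _ (f1 d hd), j3 _ (f1 d hd), fun e he hde => ?_⟩⟩
  rcases lt_or_gt_of_ne hde with h7 | h7
  · exact t6 _ (f1 d hd) _ (f1 e he) (f2 d e h7 he)
  · rw [abs_sub_comm]; exact t6 _ (f1 e he) _ (f1 d hd) (f2 e d h7 hd)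

end Pool.Agent.H.MP_098a03_an
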