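import Pool.Agent.H.MP_098a03_an.A

set_option autoImplicit false

open Filter Topology Set Real

namespace Pool.Agent.H.MP_098a03_an

variable {b ρ : ℝ}

theorem dim_pos {D : ℝ → ℝ} {C : ℝ} (h : ∀ x ∈ Ico (0 : ℝ) 1, ∀ y ∈ Ico (0 : ℝ) 1,
    |x - y| ^ 20 ≤ C * |D x - D y|) : 0 < dimH (D '' Ico 0 1) := by
  have hi : InjOn D (Ico 0 1) := fun x hx y hy hxy => by
    have := h x hx y hy
    rw [hxy, sub_self, abs_zero, mul_zero] at this
    simpa [sub_eq_zero] using pow_eq_zero_iff (n := 20) (by norm_num) |>.1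
      (le_antisymm this (by positivity))
  have h1 : HolderOnWith (Real.toNNReal (|C| ^ (1 / 20 : ℝ))) (1 / 20)
      (Function.invFunOn D (Ico 0 1)) (D '' Ico 0 1) := by
    rintro _ ⟨x, hx, rfl⟩ _ ⟨y, hy, rfl⟩
    rw [hi.leftInvOn_invFunOn hx, hi.leftInvOn_invFunOn hy, edist_dist, edist_dist,
      ENNReal.ofReal_rpow_of_nonneg dist_nonneg (by positivity)]
    change _ ≤ ENNReal.ofReal _ * _
    rw [← ENNReal.ofReal_mul (by positivity)]
    refine ENNReal.ofReal_le_ofReal ?_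
    push_cast
    rw [← mul_rpow (abs_nonneg _) dist_nonneg, one_div,
      le_rpow_inv_iff_of_pos dist_nonneg (by positivity) (by norm_num), Real.dist_eq, Real.dist_eq]
    norm_cast
    exact (h x hx y hy).trans (by gcongr; exact le_abs_self _)
  have h2 := h1.dimH_image_le (by norm_num)
  rw [hi.invFunOn_image subset_rfl, Real.dimH_of_nonempty_interior (by simp)] at h2
  refine pos_iff_ne_zero.2 fun h3 => ?_
  simp [h3] at h2

theorem digits {N : ℕ → ℕ} (hN : ∀ s, 2 ≤ N s) : ∃ d : ℝ → ℕ → ℕ, (∀ x s, d x s < N s) ∧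
    ∀ x ∈ Ico (0 : ℝ) 1, ∀ y ∈ Ico (0 : ℝ) 1, x ≠ y → ∃ s, (∀ r < s, d x r = d y r) ∧
      d x s ≠ d y s ∧ |x - y| * ∏ r ∈ Finset.range s, (N r : ℝ) ≤ 1 := by
  classical
  set P : ℕ → ℕ := fun s => ∏ r ∈ Finset.range s, N r with hP
  refine ⟨fun x s => ⌊x * P (s + 1)⌋₊ % N s, fun x s => Nat.mod_lt _ (by linarith [hN s]),
    fun x hx y hy hxy => ?_⟩
  have h1 : ∀ s, ⌊x * P s⌋₊ = ⌊y * P s⌋₊ → |x - y| * P s ≤ 1 := fun s h => by
    have a1 := Nat.floor_le (mul_nonneg hx.1 (P s).cast_nonneg)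
    have a2 := Nat.floor_le (mul_nonneg hy.1 (P s).cast_nonneg)
    have a3 := Nat.lt_floor_add_one (x * P s)
    have a4 := Nat.lt_floor_add_one (y * P s)
    rw [h] at a1 a3
    rw [← abs_of_nonneg ((P s).cast_nonneg (α := ℝ)), ← abs_mul, abs_le]
    constructor <;> linarith
  have h2 : ∃ s, ⌊x * P (s + 1)⌋₊ ≠ ⌊y * P (s + 1)⌋₊ := by
    obtain ⟨s, hs⟩ := pow_unbounded_of_one_lt (1 / |x - y|) (one_lt_two (α := ℝ))
    refine ⟨s, fun h => ?_⟩
    have a1 := h1 _ h
    have a2 : 2 ^ (s + 1) ≤ P (s + 1) := by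
      simpa using Finset.pow_card_le_prod (Finset.range (s + 1)) N 2 fun r _ => hN r
    have a3 : (2 : ℝ) ^ (s + 1) ≤ P (s + 1) := by exact_mod_cast a2
    have a4 := abs_pos.2 (sub_ne_zero.2 hxy)
    rw [div_lt_iff₀ a4] at hs
    rw [pow_succ] at a3
    nlinarith [pow_pos (two_pos (α := ℝ)) s]
  have h3 : ∀ r < Nat.find h2, ⌊x * P (r + 1)⌋₊ = ⌊y * P (r + 1)⌋₊ := fun r hr =>
    not_not.1 (Nat.find_min h2 hr)
  have h4 : ⌊x * P (Nat.find h2)⌋₊ = ⌊y * P (Nat.find h2)⌋₊ := by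
    rcases h : Nat.find h2 with _ | s
    · simp [hP, Nat.floor_eq_zero.2 hx.2, Nat.floor_eq_zero.2 hy.2]
    · exact h3 s (by omega)
  have h5 : ∀ (z : ℝ) s, ⌊z * P (s + 1)⌋₊ / N s = ⌊z * P s⌋₊ := fun z s => by
    have : (N s : ℝ) ≠ 0 := by have := hN s; positivity
    rw [← Nat.floor_div_natCast, hP]
    simp only [Finset.prod_range_succ, Nat.cast_mul]
    congr 1; field_simp
  refine ⟨Nat.find h2, fun r hr => by simp only [h3 r hr], fun h => Nat.find_spec h2 ?_,
    by simpa [hP] using h1 _ h4⟩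
  rw [← Nat.div_add_mod ⌊x * _⌋₊ (N (Nat.find h2)), ← Nat.div_add_mod ⌊y * _⌋₊ (N (Nat.find h2)),
    h5, h5, h4]
  exact congrArg _ h

/-- used levels -/
def st (f : ℕ → Finset ℕ → ℕ → ℕ) (d : ℕ → ℕ) : ℕ → Finset ℕ
  | 0 => ∅
  | s + 1 => insert (f s (st f d s) (d s)) (st f d s)

theorem st_eq (f : ℕ → Finset ℕ → ℕ → ℕ) (d : ℕ → ℕ) (s : ℕ) :
    st f d s = (Finset.range s).image fun r => f r (st f d r) (d r) := by
  induction s with
  | zero => rfl
  | succ s ih => rw [Finset.range_add_one, Finset.image_insert, ← ih, st]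

theorem st_congr (f : ℕ → Finset ℕ → ℕ → ℕ) {d e : ℕ → ℕ} {s : ℕ} (h : ∀ r < s, d r = e r) :
    ∀ r ≤ s, st f d r = st f e r := fun r hr => by
  induction r with
  | zero => rfl
  | succ r ih => rw [st, st, ih (by omega), h r hr]

theorem main (hb : 0 < b) (hb1 : b ≤ 1) (h0 : 0 < ρ) (h1 : ρ < 1) :
    0 < dimH {y | ∃ J : ℕ → ℕ, (∀ i, J i ≤ i) ∧ HasSum (fun i => c b i * ρ ^ J i) y} := by
  classical
  obtain ⟨M, hM⟩ := exists_nat_ge (max (72 / b) (max (16 / ρ) (130 / -log ρ)))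
  simp only [max_le_iff] at hM
  set N : ℕ → ℕ := fun s => 2 ^ Nat.log 16 (s + 16 ^ M) with hN
  set n : ℕ → ℕ := fun s => 4 * (s + 16 ^ M) with hn
  have a1 : ∀ s, (M : ℝ) ≤ N s := fun s => by
    have : M ≤ Nat.log 16 (s + 16 ^ M) := Nat.le_log_of_pow_le (by norm_num) (by omega)
    exact_mod_cast this.trans Nat.lt_two_pow_self.le
  have a2 : ∀ s, N s ^ 4 = 16 ^ Nat.log 16 (s + 16 ^ M) := fun s => by
    rw [hN, ← pow_mul, mul_comm, pow_mul]; norm_num
  have a3 : ∀ s, 4 * N s ^ 4 ≤ n s := fun s => by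
    rw [a2]; exact Nat.mul_le_mul_left 4 (Nat.pow_log_le_self _ (by positivity))
  have a4 : ∀ s, n s ≤ 64 * N s ^ 4 := fun s => by
    have := Nat.lt_pow_succ_log_self (b := 16) (by norm_num) (s + 16 ^ M)
    rw [a2, hn]; rw [pow_succ] at this; simp only; omega
  have a5 : ∀ s, 72 ≤ b * N s := fun s => by
    have := hM.1.trans (a1 s)
    rwa [div_le_iff₀' hb] at this
  have a6 : ∀ s, (72 : ℝ) ≤ N s := fun s => by nlinarith [a5 s, (N s).cast_nonneg (α := ℝ)]
  choose! f j hf using fun s => stage hb hb1 h0 h1 (a3 s) (a4 s) (hM.1.trans (a1 s))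
    (hM.2.1.trans (a1 s)) (hM.2.2.trans (a1 s))
  obtain ⟨d, d1, d2⟩ := digits (N := N) fun s => by
    have : (2 : ℝ) ≤ N s := by linarith [a6 s]
    exact_mod_cast this
  set L : ℝ → ℕ → ℕ := fun x s => f s (st f (d x) s) (d x s) with hL
  have b1 : ∀ x s, ((st f (d x) s).filter (n s ≤ · + 16 * N s)).card ≤ 4 * N s := fun x s => by
    induction s using Nat.strong_induction_on with
    | _ s ih =>
      refine (Finset.card_le_card (t := (Finset.Ico (s - 4 * N s) s).image (L x)) fun i hi => ?_).trans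
        (Finset.card_image_le.trans (by simp; omega))
      rw [Finset.mem_filter, st_eq, Finset.mem_image] at hi
      obtain ⟨⟨r, h2, rfl⟩, h3⟩ := hi
      rw [Finset.mem_range] at h2
      have := (hf r _ (ih r h2) _ (d1 x r)).2.1
      refine Finset.mem_image_of_mem _ (Finset.mem_Ico.2 ⟨?_, h2⟩)
      simp only [hn] at h3 this
      omega
  have b2 := fun x s => hf s _ (b1 x s) _ (d1 x s)
  set J : ℝ → ℕ → ℕ := fun x s => j s (st f (d x) s) (d x s) with hJ
  set Δ : ℝ → ℕ → ℝ := fun x s => c b (L x s) * ρ ^ J x s - c b (L x s) * ρ ^ L x s with hΔ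
  have b3 : ∀ x s, 0 ≤ Δ x s := fun x s => sub_nonneg.2 (mul_le_mul_of_nonneg_left
    (pow_le_pow_of_le_one h0.le h1.le (b2 x s).2.2.1) (c_pos hb _).le)
  have b4 : ∀ x s k, Δ x (k + s) ≤ c b (n s) / 2 / 2 ^ k * 2 := fun x s k => by
    refine ((sub_le_self _ (mul_pos (c_pos hb _) (by positivity)).le).trans (b2 x _).2.2.2.1).trans ?_
    induction k with
    | zero => simp
    | succ k ih =>
      have e1 := c_le hb hb1 (n (k + s)) 1
      have e2 := c_anti hb hb1 (show n (k + s) + 1 ≤ n (k + 1 + s) by simp only [hn]; omega)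
      have e3 : (1 : ℝ) ≤ n (k + s) := by
        exact_mod_cast (by simp only [hn]; have := Nat.pos_of_ne_zero (pow_ne_zero M (by norm_num : 16 ≠ 0)); omega : 1 ≤ n (k + s))
      have e4 := one_div_le_one_div_of_le two_pos (show (2 : ℝ) ≤ n (k + s) + 1 by linarith)
      rw [pow_succ, ← div_div]
      nlinarith [c_pos hb (n (k + s))]
  have b5 : ∀ x s, Summable fun k => Δ x (k + s) := fun x s =>
    .of_nonneg_of_le (fun _ => b3 _ _) (b4 x s) ((hasSum_geometric_two' _).mul_right 2).summable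
  have b6 : ∀ x s, ∑' k, Δ x (k + s) ≤ c b (n s) * 2 := fun x s =>
    hasSum_le (b4 x s) (b5 x s).hasSum ((hasSum_geometric_two' _).mul_right 2)
  have b7 : ∀ s, c b (n 0 + 4) ≤ c b (n s + 4) * (∏ r ∈ Finset.range s, (N r : ℝ)) ^ 20 := fun s => by
    induction s with
    | zero => simp
    | succ s ih =>
      have e1 := c_ge hb (n s + 4) 4 (n s + 8) le_rfl
      have e2 : (n s : ℝ) ≤ 64 * N s ^ 4 := by exact_mod_cast a4 s
      have e3 : 1 ≤ b / (n s + 8 : ℕ) * N s ^ 5 := by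
        have : (1 : ℝ) ≤ N s ^ 4 := one_le_pow₀ (by linarith [a6 s])
        rw [div_mul_eq_mul_div, one_le_div (by positivity)]
        push_cast
        nlinarith [a5 s]
      have e4 := one_le_pow₀ (n := 4) e3
      rw [mul_pow, ← pow_mul] at e4
      rw [Finset.prod_range_succ, mul_pow, show n (s + 1) + 4 = n s + 4 + 4 by simp only [hn]; ring,
        mul_comm _ ((N s : ℝ) ^ 20), ← mul_assoc]
      refine ih.trans (mul_le_mul_of_nonneg_right ((le_mul_of_one_le_right (c_pos hb _).le e4).trans ?_)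
        (by positivity))
      rw [← mul_assoc]
      gcongr
  have b9 : ∀ x, Summable (Δ x) := fun x => b5 x 0
  have b8 : Summable fun i => c b i * ρ ^ i := by
    simpa only [c, mul_pow, div_mul_eq_mul_div] using summable_pow_div_factorial (b * ρ)
  refine (dim_pos (D := fun x => ∑' k, Δ x k + ∑' i, c b i * ρ ^ i) (C := 1 / c b (n 0 + 4))
    fun x hx y hy => ?_).trans_le (dimH_mono ?_)
  · rcases eq_or_ne x y with rfl | hxy
    · simp
    obtain ⟨s, e1, e2, e3⟩ := d2 x hx y hy hxy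
    have e4 := (b2 x s).2.2.2.2 _ (d1 y s) e2
    have e5 := st_congr f e1
    have e6 : ∑ r ∈ Finset.range s, Δ x r = ∑ r ∈ Finset.range s, Δ y r :=
      Finset.sum_congr rfl fun r hr => by
        have := Finset.mem_range.1 hr
        simp only [hΔ, hL, hJ, e5 r this.le, e1 r this]
    have e7 : c b (n s + 4) ≤ |∑' k, Δ x k - ∑' k, Δ y k| := by
      rw [← (b9 x).sum_add_tsum_nat_add (s + 1), ← (b9 y).sum_add_tsum_nat_add (s + 1)]
      simp only [Finset.sum_range_succ, e6]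
      have g1 := b6 x (s + 1)
      have g2 := b6 y (s + 1)
      have g3 : 0 ≤ ∑' k, Δ x (k + (s + 1)) := tsum_nonneg fun _ => b3 _ _
      have g4 : 0 ≤ ∑' k, Δ y (k + (s + 1)) := tsum_nonneg fun _ => b3 _ _
      have g5 : 3 * c b (n s + 4) ≤ |Δ x s - Δ y s| := by
        simpa only [hΔ, hL, hJ, ← e5 s le_rfl] using e4
      rw [show n (s + 1) = n s + 4 by simp only [hn]; ring] at g1 g2
      rw [le_abs] at g5 ⊢
      rcases g5 with g5 | g5
      · left; linarith
      · right; linarith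
    rw [add_sub_add_right_eq_sub, one_div_mul_eq_div, le_div_iff₀ (c_pos hb _)]
    refine (mul_le_mul_of_nonneg_left (b7 s) (by positivity)).trans ?_
    rw [mul_left_comm, ← mul_pow]
    exact (mul_le_of_le_one_right (c_pos hb _).le (pow_le_one₀ (by positivity) e3)).trans e7
  rintro _ ⟨x, -, rfl⟩
  have e1 : Function.Injective (L x) := Function.Injective.of_lt_imp_ne fun r s hrs h => (b2 x s).1
    ((st_eq f (d x) s).ge (Finset.mem_image.2 ⟨r, Finset.mem_range.2 hrs, h⟩))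
  refine ⟨Function.extend (L x) (J x) id, fun i => ?_, ?_⟩
  · by_cases h : ∃ s, L x s = i
    · obtain ⟨s, rfl⟩ := h
      rw [e1.extend_apply]; exact (b2 x s).2.2.1
    · rw [Function.extend_apply' _ _ _ h]; rfl
  have e2 := (e1.hasSum_iff (f := fun i => c b i * ρ ^ Function.extend (L x) (J x) id i - c b i * ρ ^ i)
    (a := ∑' k, Δ x k) fun i hi => by rw [Function.extend_apply' _ _ _ hi]; simp).1 (by
      simpa only [Function.comp_def, e1.extend_apply] using (b9 x).hasSum)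
  simpa using e2.add b8.hasSum

end Pool.Agent.H.MP_098a03_an
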